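import Pool.Agent.Q295.PL.Stm
import Pool.Agent.Q257.LC.KerB
import Pool.Agent.Q68.LC.Bas1
import Pool.Agent.Q68.LC.Bas2
import Pool.Agent.Q277.LC.Sub
import Pool.Agent.Q187.LC.Rev

/-!
# Project LC2: Green function in a good environment, `S_KRT` (helper190 for helper295)
-/

set_option autoImplicit false

namespace Pool.Agent.Q190.L2

open Finset Equiv Matrix Q292.LC Q295.PL Pool.Agent.Q257.LC

/-- `∑ w^(k+1)/(k+1) ≤ log (1/(1-w))` -/
theorem log_sum (w : ℝ) (hw0 : 0 ≤ w) (hw1 : w < 1) (N : ℕ) :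
    ∑ k ∈ range N, w ^ (k + 1) / ((k : ℝ) + 1) ≤ Real.log (1 / (1 - w)) := by
  have h1 := Real.hasSum_pow_div_log_of_abs_lt_one (show |w| < 1 by rw [abs_of_nonneg hw0]; exact hw1)
  have h2 : Real.log (1 / (1 - w)) = -Real.log (1 - w) := by
    rw [one_div, Real.log_inv]
  rw [h2]
  exact sum_le_hasSum _ (fun k _ => by positivity) h1

theorem green_sum2 (a : ℕ → ℝ) (w c K Ld : ℝ) (hw0 : 0 ≤ w) (hw1 : w < 1)
    (hc : 0 ≤ c) (hK : 0 < K) (hL : 0 < Ld)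
    (ha : ∀ k : ℕ, a k ≤ c * (3 / (((k : ℝ) + 1) * K) + 1 / Ld)) (N : ℕ) :
    ∑ k ∈ range N, w ^ (k + 1) * a k ≤
      3 * c * ((1 + Real.log (1 / (1 - w))) / K + 1 / (Ld * (1 - w))) := by
  have hw : 0 < 1 - w := by linarith
  have h3 : ∀ k ∈ range N, w ^ (k + 1) * a k ≤
      3 * c / K * (w ^ (k + 1) / ((k : ℝ) + 1)) + c / Ld * w ^ k := by
    intro k _
    have h5 : w ^ (k + 1) ≤ w ^ k := pow_le_pow_of_le_one hw0 hw1.le (Nat.le_succ k)
    have h7 : 0 ≤ w ^ (k + 1) := pow_nonneg hw0 _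
    have hk : (0 : ℝ) < (k : ℝ) + 1 := by positivity
    calc w ^ (k + 1) * a k ≤ w ^ (k + 1) * (c * (3 / (((k : ℝ) + 1) * K) + 1 / Ld)) :=
          mul_le_mul_of_nonneg_left (ha k) h7
      _ = 3 * c / K * (w ^ (k + 1) / ((k : ℝ) + 1)) + c / Ld * w ^ (k + 1) := by
          field_simp
      _ ≤ _ := by
          have : 0 ≤ c / Ld := by positivity
          linarith [mul_le_mul_of_nonneg_left h5 this]
  have h9 : ∑ k ∈ range N, w ^ k ≤ (1 - w)⁻¹ :=
    sum_le_hasSum _ (fun k _ => pow_nonneg hw0 k) (hasSum_geometric_of_lt_one hw0 hw1)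
  have hlog0 : 0 ≤ Real.log (1 / (1 - w)) := by
    apply Real.log_nonneg
    rw [le_div_iff₀ hw]
    linarith
  calc ∑ k ∈ range N, w ^ (k + 1) * a k ≤ ∑ k ∈ range N,
        (3 * c / K * (w ^ (k + 1) / ((k : ℝ) + 1)) + c / Ld * w ^ k) := sum_le_sum h3
    _ = 3 * c / K * ∑ k ∈ range N, w ^ (k + 1) / ((k : ℝ) + 1) + c / Ld * ∑ k ∈ range N, w ^ k := by
        rw [sum_add_distrib, mul_sum, mul_sum]
    _ ≤ 3 * c / K * Real.log (1 / (1 - w)) + c / Ld * (1 - w)⁻¹ :=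
        add_le_add (mul_le_mul_of_nonneg_left (log_sum w hw0 hw1 N) (by positivity))
          (mul_le_mul_of_nonneg_left h9 (by positivity))
    _ ≤ 3 * c / K * (1 + Real.log (1 / (1 - w))) + 3 * (c / Ld * (1 - w)⁻¹) := by
        have e1 : 0 ≤ 3 * c / K := by positivity
        have e2 : 0 ≤ c / Ld * (1 - w)⁻¹ := by positivity
        nlinarith
    _ = _ := by
        field_simp

theorem row_to (M : ℝ) (hM : 0 ≤ M) (K Ld : ℝ) (hK : 0 < K) (i k : ℕ)
    (hik : k + 1 ≤ 3 * (i + 1)) :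
    M * (1 / ((i + 1 : ℕ) * K) + 1 / Ld) ≤ M * (3 / (((k : ℝ) + 1) * K) + 1 / Ld) := by
  apply mul_le_mul_of_nonneg_left _ hM
  have h1 : ((k : ℝ) + 1) ≤ 3 * ((i + 1 : ℕ) : ℝ) := by exact_mod_cast hik
  have h2 : 1 / (((i + 1 : ℕ) : ℝ) * K) ≤ 3 / (((k : ℝ) + 1) * K) := by
    rw [div_le_div_iff₀ (by positivity) (by positivity)]
    nlinarith
  linarith

theorem krt (hLPM : S_LPM) : S_KRT := by
  have hB1 : S_BAS1 := Pool.Agent.Q68.LC.bas1
  have hB2 : S_BAS2 := Pool.Agent.Q68.LC.bas2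
  have hGE : S_GE := Pool.Agent.Q277.LC.ge
  have hSUB : S_SUB := Pool.Agent.Q277.LC.sub
  have hREV : S_REV := Pool.Agent.Q187.LC.Rev.rev
  intro d hd
  obtain ⟨Cl, ml, hCl, hlap⟩ := hLPM d hd
  have hd1 : 1 ≤ d := by omega
  refine ⟨Cl + 3, ml + 2, by omega, ?_⟩
  intro Z hZ L K lam r ρ κ₀ _ hlam hρ hκ hr hL hK
  obtain ⟨n1, n2, n3, n4, n5, n6, hL3, n8, n9, n10⟩ :=
    ker_nat Z ml r ρ K L (by omega) hρ hr hL hK
  obtain ⟨q1, hq1⟩ := hlap Z (by omega) L K lam (r - ρ) ρ (κ₀ + 1) hlam hρ hκ n1 n3 n4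
  obtain ⟨q2, hq2⟩ := hlap Z (by omega) L (K / 2) lam (r - ρ) ρ (κ₀ + 1) hlam hρ hκ n1 n3 n5
  obtain ⟨q3, hq3⟩ := hlap Z (by omega) L (K - K / 2) lam (r - ρ) ρ (κ₀ + 1) hlam hρ hκ n1
    n3 n6
  refine ⟨q1 + q2 + q3 + 2, ?_⟩
  intro q hq σ hσ δ h1 h2 ω R hGd w U x y hw0 hw1 hUR hxR hxU hyU N
  have hqr : (2 : ℝ) ≤ q := by
    have : 2 ≤ q := by omega
    exact_mod_cast this
  have hδ : 0 < δ := by
    by_contra h
    push Not at h
    nlinarith
  have hδ1 : δ ≤ 1 := by nlinarith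
  have hEv : Ev σ q K lam (r - ρ) ρ (κ₀ + 1) ω R :=
    hGE d L hL3 σ hσ q K lam (r - ρ) ρ κ₀ ω R (by omega) n10 (by rw [n2]; exact hGd)
  obtain ⟨hσr, hEvr, hTr⟩ := hREV d L hd1 hL3 σ hσ q K lam (r - ρ) ρ (κ₀ + 1) ω R δ
  have hB := hB2 _ (ed ∘ σ) ω R δ hδ.le hδ1
  obtain ⟨T, hT⟩ : ∃ T, T = TT (ed ∘ σ) ω R δ (K * (q * ms d L)) := ⟨_, rfl⟩
  obtain ⟨R', hR'⟩ : ∃ R', R' = R.image (gp (ed ∘ σ) ω (K * (q * ms d L))) := ⟨_, rfl⟩
  have hT0 : ∀ x y, 0 ≤ T x y := by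
    rw [hT]
    exact hB.1 _
  have hz : ∀ a, a ∉ R → ∀ b ∈ R', T a b = 0 := by
    rw [hT, hR']
    exact hB.2.2.2.2.1 _
  have hL0 : (0 : ℝ) < L := by
    have : 0 < L := by omega
    exact_mod_cast this
  have hLd : (0 : ℝ) < (L : ℝ) ^ d := by positivity
  have hK0 : (0 : ℝ) < K := by exact_mod_cast n10
  have hZ0 : (3 : ℝ) ≤ Z := by
    have : 3 ≤ Z := by omega
    exact_mod_cast this
  obtain ⟨c, hc⟩ : ∃ c : ℝ, c = (Z : ℝ) ^ ml := ⟨_, rfl⟩
  have hc0 : 0 ≤ c := by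
    rw [hc]
    positivity
  have hw : 0 < 1 - w := by linarith
  have hlog0 : 0 ≤ Real.log (1 / (1 - w)) := by
    apply Real.log_nonneg
    rw [le_div_iff₀ hw]
    linarith
  rw [← hT]
  by_cases hy : y ∈ R'
  · have h3 : ∀ k ∈ range N, w ^ (k + 1) * (T * (dg U * T) ^ k) x y = 0 := fun k _ => by
      rw [pow_zero_col T R R' U hUR hz k x hxR y hy, mul_zero]
    rw [sum_eq_zero h3]
    positivity
  · -- the kernel of all powers
    have hUR2 : Disjoint (U \ R') R := disjoint_of_subset_left sdiff_subset hUR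
    have hUR3 : Disjoint (U \ R') R' := sdiff_disjoint
    have hpow : ∀ k : ℕ, (T * (dg U * T) ^ k) x y ≤
        c * (3 / (((k : ℝ) + 1) * K) + 1 / (L : ℝ) ^ d) := by
      intro k
      have hW0 : 0 ≤ c * (3 / (((k : ℝ) + 1) * K) + 1 / (L : ℝ) ^ d) := by positivity
      rcases Nat.eq_zero_or_pos k with hk | hk
      · subst hk
        rw [pow_zero, Matrix.mul_one]
        -- two halves
        obtain ⟨K1, hK1⟩ : ∃ K1, K1 = K / 2 := ⟨_, rfl⟩
        obtain ⟨K2, hK2⟩ : ∃ K2, K2 = K - K / 2 := ⟨_, rfl⟩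
        have hKK : K = K1 + K2 := by omega
        obtain ⟨T1, hT1⟩ : ∃ T1, T1 = TT (ed ∘ σ) ω R δ (K1 * (q * ms d L)) := ⟨_, rfl⟩
        obtain ⟨ω1, hω1⟩ : ∃ ω1 : ℕ → Bool, ω1 = sh (K1 * (q * ms d L)) ω := ⟨_, rfl⟩
        obtain ⟨R1, hR1⟩ : ∃ R1, R1 = R.image (gp (ed ∘ σ) ω (K1 * (q * ms d L))) := ⟨_, rfl⟩
        obtain ⟨T2, hT2⟩ : ∃ T2, T2 = TT (ed ∘ σ) ω1 R1 δ (K2 * (q * ms d L)) := ⟨_, rfl⟩
        have hTT : T = T1 * T2 := by
          rw [hT, hT1, hT2, hω1, hR1, hKK]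
          exact TT_units hB2 hσ ω R hδ.le hδ1 q K1 K2
        have hE1 : Ev σ q K1 lam (r - ρ) ρ (κ₀ + 1) ω R := by
          have h4 := (hSUB d L hL3 σ hσ q K lam (r - ρ) ρ (κ₀ + 1) ω R hEv 0 K1 (by omega)).2
          have h5 : sh (0 * (q * ms d L)) ω = ω := by
            funext k
            simp [sh]
          have h6 : R.image (gp (ed ∘ σ) ω (0 * (q * ms d L))) = R := by
            rw [Nat.zero_mul]
            simp [gp]
          rw [h5, h6] at h4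
          exact h4
        have hE2 : Ev σ q K2 lam (r - ρ) ρ (κ₀ + 1) ω1 R1 := by
          rw [hω1, hR1]
          exact (hSUB d L hL3 σ hσ q K lam (r - ρ) ρ (κ₀ + 1) ω R hEv K1 K2 (by omega)).2
        obtain ⟨-, hEvr2, hTr2⟩ := hREV d L hd1 hL3 σ hσ q K2 lam (r - ρ) ρ (κ₀ + 1) ω1 R1 δ
        have hy2 : y ∉ R1.image (gp (ed ∘ σ) ω1 (K2 * (q * ms d L))) := by
          intro h7
          apply hy
          rw [hR1, image_image] at h7
          rw [hR', hKK, add_mul, (hB1 _ (ed ∘ σ) ω).1, sh_ed hσ, ← hω1]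
          obtain ⟨a, ha, hay⟩ := mem_image.1 h7
          exact mem_image.2 ⟨a, ha, hay⟩
        have f1 : ∑ z, (T1 x z) ^ 2 ≤ c * (1 / ((0 + 1 : ℕ) * (K1 : ℝ)) + 1 / (L : ℝ) ^ d) := by
          have h8 := hq2 q (by omega) σ hσ δ h1 h2 ω R (by rw [← hK1]; exact hE1) ∅ x
            (disjoint_empty_left R) hxR 0
          rw [← hK1, ← hT1, ← hc] at h8
          rw [pow_zero, Matrix.mul_one] at h8
          exact h8
        have f2 : ∑ z, (T2 z y) ^ 2 ≤ c * (1 / ((0 + 1 : ℕ) * (K2 : ℝ)) + 1 / (L : ℝ) ^ d) := by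
          have hE3 := hEvr2 hE2
          have h8 := hq3 q (by omega) (rvs σ) hσr δ h1 h2 _ _ (by rw [← hK2]; exact hE3) ∅ y
            (disjoint_empty_left _) hy2 0
          rw [← hK2, hTr2, ← hT2, ← hc] at h8
          rw [pow_zero, Matrix.mul_one] at h8
          exact h8
        rw [hTT, Matrix.mul_apply]
        refine cs_half _ _ _ _ f1 f2 _ hW0 ?_ ?_
        · have hK10 : (0 : ℝ) < K1 := by
            have : 0 < K1 := by omega
            exact_mod_cast this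
          apply mul_le_mul_of_nonneg_left _ hc0
          have h9 : (K : ℝ) ≤ 3 * K1 := by rw [hK1]; exact_mod_cast n8
          have h10 : 1 / (((0 + 1 : ℕ) : ℝ) * (K1 : ℝ)) ≤ 3 / ((((0 : ℕ) : ℝ) + 1) * K) := by
            rw [div_le_div_iff₀ (by positivity) (by positivity)]
            push_cast
            linarith
          linarith
        · have hK20 : (0 : ℝ) < K2 := by
            have : 0 < K2 := by omega
            exact_mod_cast this
          apply mul_le_mul_of_nonneg_left _ hc0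
          have h9 : (K : ℝ) ≤ 3 * K2 := by rw [hK2]; exact_mod_cast n9
          have h10 : 1 / (((0 + 1 : ℕ) : ℝ) * (K2 : ℝ)) ≤ 3 / ((((0 : ℕ) : ℝ) + 1) * K) := by
            rw [div_le_div_iff₀ (by positivity) (by positivity)]
            push_cast
            linarith
          linarith
      · rw [pow_eq_sdiff T R R' U hUR hz k x hxR y]
        obtain ⟨i, j, hij, hi, hj⟩ : ∃ i j : ℕ, i + j + 1 = k ∧ k + 1 ≤ 3 * (i + 1) ∧
          k + 1 ≤ 3 * (j + 1) := ⟨(k - 1) / 2, k - 1 - (k - 1) / 2, by omega, by omega, by omega⟩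
        have f1 := hq1 q (by omega) σ hσ δ h1 h2 ω R hEv (U \ R') x hUR2 hxR i
        rw [← hT, ← hc] at f1
        have f2 := hq1 q (by omega) (rvs σ) hσr δ h1 h2 _ _ (hEvr hEv) (U \ R') y
          (by rw [← hR']; exact hUR3) (by rw [← hR']; exact hy) j
        rw [hTr, ← hT, ← hc] at f2
        rw [← hij, pow_split]
        have h3 : ∀ z, (T * (dg (U \ R') * T) ^ j) z y = (Tᵀ * (dg (U \ R') * Tᵀ) ^ j) y z := by
          intro z
          rw [← pow_transpose]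
          rfl
        simp only [h3]
        rw [hij]
        refine cs_half _ _ (c * (1 / ((i + 1 : ℕ) * (K : ℝ)) + 1 / (L : ℝ) ^ d)) _ ?_ f2 _ hW0 ?_ ?_
        · refine le_trans (sum_le_sum fun z _ => ?_) f1
          split_ifs
          · exact le_rfl
          · rw [zero_pow two_ne_zero]
            exact sq_nonneg _
        · exact row_to c hc0 K _ hK0 i k hi
        · exact row_to c hc0 K _ hK0 j k hj
    refine (green_sum2 (fun k => (T * (dg U * T) ^ k) x y) w c K ((L : ℝ) ^ d) hw0 hw1 hc0 hK0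
      hLd hpow N).trans ?_
    apply mul_le_mul_of_nonneg_right _ (by positivity)
    rw [hc, pow_add]
    have h5 : (0 : ℝ) ≤ (Z : ℝ) ^ ml := by positivity
    have h6 : (3 : ℝ) ≤ (Z : ℝ) ^ 2 := by nlinarith
    nlinarith

end Pool.Agent.Q190.L2
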